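import Mathlib

/-!
# The path partition conjecture for digraphs fails for all pairs (1, n) with n at least 27

For every `n ≥ 27` there is an oriented graph `D` with `n + 3` vertices whose longest directed
path has exactly `n + 1` vertices, such that no partition of the vertex set into `S` and its
complement has a longest directed path with exactly `1` vertex in `S` and a longest directed path
with exactly `n` vertices in the complement.

`D` consists of a block on 15 vertices, a directed path with `m = n - 27` vertices, and the mirror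
image of the block. A path of the block which ends in one of its three terminals has at most 14
vertices; if such a path has 13 vertices and misses a stable set, then another one, with 14
vertices, misses the same stable set.
-/

set_option autoImplicit false

namespace Pool.Agent.Results.MP_398cfe_co.AllLengths

/-- `D` has a directed path with `m` vertices, all of them in `S`. -/
def HasPath {V : Type} (D : Digraph V) (S : Set V) (m : ℕ) : Prop :=
  ∃ f : Fin m → V, Function.Injective f ∧ (∀ i, f i ∈ S) ∧
    ∀ i j : Fin m, j.val = i.val + 1 → D.Adj (f i) (f j)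

/-- The longest directed path of the subdigraph induced by `S` has exactly `m` vertices. -/
def Lam {V : Type} (D : Digraph V) (S : Set V) (m : ℕ) : Prop :=
  HasPath D S m ∧ ∀ k, HasPath D S k → k ≤ m



/-- the arcs of the block, read backwards from its terminals 3, 4, 5 -/
def nx : ℕ → List ℕ
  | 0 => [2, 7]
  | 1 => [0, 8]
  | 2 => [1, 6]
  | 3 => [5, 14]
  | 4 => [3, 12]
  | 5 => [4, 13]
  | 6 => [1, 12]
  | 7 => [2, 13]
  | 8 => [0, 14]
  | 9 => [4, 6]
  | 10 => [5, 7]
  | 11 => [3, 8]
  | 12 => [9]
  | 13 => [10]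
  | 14 => [11]
  | _ => []

/-- the arcs of the second block -/
def B (a b : Fin 15) : Prop := b.val ∈ nx a.val

instance : DecidableRel B := fun a b => inferInstanceAs (Decidable (b.val ∈ nx a.val))

/-- the terminals -/
def T (a : Fin 15) : Prop := a.val ∈ [3, 4, 5]

instance : DecidablePred T := fun a => inferInstanceAs (Decidable (a.val ∈ [3, 4, 5]))

/-- search over all paths with `k` further steps -/
def chk (P : ℕ → Bool) : ℕ → ℕ → ℕ → Bool
  | 0, used, _ => P used
  | k + 1, used, v => (nx v).all fun w => used.testBit w || chk P k (used ||| 2 ^ w) w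

/-- bit mask of a list -/
def mask (l : List (Fin 15)) (u : ℕ) : ℕ := l.foldl (fun u x => u ||| 2 ^ x.val) u

theorem mask_bit (l : List (Fin 15)) : ∀ (u : ℕ) (y : Fin 15),
    (mask l u).testBit y.val = true → u.testBit y.val = true ∨ y ∈ l := by
  induction l with
  | nil => intro u y h; exact Or.inl h
  | cons w l ih =>
    intro u y h
    rcases ih (u ||| 2 ^ w.val) y h with h | h
    · rw [Nat.testBit_or, Bool.or_eq_true, Nat.testBit_two_pow, decide_eq_true_iff] at h
      rcases h with h | h
      · exact Or.inl h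
      · exact Or.inr (by rw [Fin.ext h]; exact List.mem_cons_self)
    · exact Or.inr (List.mem_cons_of_mem _ h)

theorem sound (P : ℕ → Bool) : ∀ (l : List (Fin 15)) (u : ℕ) (v : Fin 15),
    chk P l.length u v.val = true → (v :: l).IsChain B → l.Nodup →
    (∀ x ∈ l, u.testBit x.val = false) → P (mask l u) = true := by
  intro l
  induction l with
  | nil => intro u v h _ _ _; exact h
  | cons w l ih =>
    intro u v h hc hn hu
    rw [List.isChain_cons_cons] at hc
    simp only [List.length_cons, chk, List.all_eq_true] at h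
    have hw := h w.val hc.1
    rw [Bool.or_eq_true, hu w List.mem_cons_self] at hw
    rcases hw with hw | hw
    · exact absurd hw (by simp)
    rw [List.nodup_cons] at hn
    refine ih (u ||| 2 ^ w.val) w hw hc.2 hn.2 fun x hx => ?_
    rw [Nat.testBit_or, hu x (List.mem_cons_of_mem _ hx), Bool.false_or, Nat.testBit_two_pow,
      decide_eq_false_iff_not]
    intro e
    exact hn.1 (by rw [Fin.ext e]; exact hx)

/-- a path of the second block leaving from a terminal -/
structure Tp (l : List (Fin 15)) : Prop where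
  nd : l.Nodup
  ch : l.IsChain B
  hd : ∃ v ∈ l.head?, T v

theorem check15 : ∀ v : Fin 15, T v → chk (fun _ => false) 14 (2 ^ v.val) v.val = true := by
  decide +kernel

/-- every vertex outside the triangle 0, 1, 2 is used -/
def good (used : ℕ) : Bool := (List.range 12).all fun i => used.testBit (i + 3)

theorem check13 : ∀ v : Fin 15, T v → chk good 12 (2 ^ v.val) v.val = true := by
  decide +kernel

theorem Tp.split {l : List (Fin 15)} (h : Tp l) : ∃ v r, l = v :: r ∧ T v := by
  obtain ⟨v, hv, ht⟩ := h.hd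
  cases l with
  | nil => simp at hv
  | cons a r =>
    simp only [List.head?_cons, Option.mem_def, Option.some.injEq] at hv
    exact ⟨a, r, rfl, hv ▸ ht⟩

theorem Tp.le {l : List (Fin 15)} (h : Tp l) : l.length ≤ 14 := by
  obtain ⟨v, r, rfl, hv⟩ := h.split
  by_contra hl
  have h1 := h.nd.length_le_card
  rw [Fintype.card_fin] at h1
  have h2 : r.length = 14 := by
    simp only [List.length_cons] at hl h1
    omega
  have hn := List.nodup_cons.1 h.nd
  have := sound (fun _ => false) r (2 ^ v.val) v (by rw [h2]; exact check15 v hv) h.ch hn.2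
    (fun x hx => by
      rw [Nat.testBit_two_pow, decide_eq_false_iff_not]
      intro e
      exact hn.1 (by rw [Fin.ext e]; exact hx))
  exact absurd this (by simp)

theorem Tp.all {l : List (Fin 15)} (h : Tp l) (h13 : l.length = 13) :
    ∀ y : Fin 15, 3 ≤ y.val → y ∈ l := by
  obtain ⟨v, r, rfl, hv⟩ := h.split
  have hn := List.nodup_cons.1 h.nd
  have h2 : r.length = 12 := by simpa using h13
  have := sound good r (2 ^ v.val) v (by rw [h2]; exact check13 v hv) h.ch hn.2
    (fun x hx => by
      rw [Nat.testBit_two_pow, decide_eq_false_iff_not]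
      intro e
      exact hn.1 (by rw [Fin.ext e]; exact hx))
  intro y hy
  unfold good at this
  rw [List.all_eq_true] at this
  have hb := this (y.val - 3) (List.mem_range.2 (by have := y.isLt; omega))
  rw [Nat.sub_add_cancel hy] at hb
  rcases mask_bit _ _ _ hb with hb | hb
  · rw [Nat.testBit_two_pow, decide_eq_true_iff] at hb
    rw [← Fin.ext hb]; exact List.mem_cons_self
  · exact List.mem_cons_of_mem _ hb

/-- the three long paths; the `k`-th one misses the vertex `k` -/
def lg : Fin 3 → List (Fin 15) :=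
  ![[4, 12, 9, 6, 1, 8, 14, 11, 3, 5, 13, 10, 7, 2],
    [5, 13, 10, 7, 2, 6, 12, 9, 4, 3, 14, 11, 8, 0],
    [3, 14, 11, 8, 0, 7, 13, 10, 5, 4, 12, 9, 6, 1]]

theorem lg_tp (k : Fin 3) : Tp (lg k) :=
  ⟨by revert k; decide +kernel, by revert k; decide +kernel, by
    fin_cases k
    · exact ⟨4, rfl, by decide⟩
    · exact ⟨5, rfl, by decide⟩
    · exact ⟨3, rfl, by decide⟩⟩

theorem lg_len (k : Fin 3) : (lg k).length = 14 := by fin_cases k <;> rfl

theorem lg_miss : ∀ k : Fin 3, ∀ x ∈ lg k, x.val ≠ k.val := by decide +kernel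

theorem tri : ∀ a b : Fin 15, a.val < 3 → b.val < 3 → a ≠ b → B a b ∨ B b a := by decide +kernel

/-- a stable set that is missed by a path with 13 vertices is missed by one with 14 -/
theorem Tp.ext {l : List (Fin 15)} (h : Tp l) (h13 : l.length = 13) (S : Set (Fin 15))
    (hS : ∀ a ∈ S, ∀ b ∈ S, ¬ B a b) (hd : ∀ x ∈ l, x ∉ S) :
    ∃ l', Tp l' ∧ l'.length = 14 ∧ ∀ x ∈ l', x ∉ S := by
  have h3 : ∀ y ∈ S, y.val < 3 := fun y hy => by
    by_contra hc
    exact hd y (h.all h13 y (by omega)) hy
  by_cases he : ∃ a, a ∈ S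
  · obtain ⟨a, ha⟩ := he
    refine ⟨lg ⟨a.val, h3 a ha⟩, lg_tp _, lg_len _, fun x hx hxS => ?_⟩
    have h1 := lg_miss _ x hx
    have h2 : a ≠ x := fun e => h1 (congrArg Fin.val e).symm
    rcases tri a x (h3 a ha) (h3 x hxS) h2 with h | h
    · exact hS _ ha _ hxS h
    · exact hS _ hxS _ ha h
  · exact ⟨lg 0, lg_tp _, lg_len _, fun x _ hx => he ⟨x, hx⟩⟩



theorem hasPath_iff {V : Type} (D : Digraph V) (S : Set V) (m : ℕ) : HasPath D S m ↔
    ∃ l : List V, l.length = m ∧ l.Nodup ∧ l.IsChain D.Adj ∧ ∀ x ∈ l, x ∈ S := by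
  constructor
  · rintro ⟨f, h1, h2, h3⟩
    refine ⟨List.ofFn f, List.length_ofFn, List.nodup_ofFn.2 h1,
      List.isChain_ofFn.2 fun i hi => h3 _ _ rfl, fun x hx => ?_⟩
    obtain ⟨i, rfl⟩ := (List.mem_ofFn' _ _).1 hx
    exact h2 i
  · rintro ⟨l, rfl, h1, h2, h3⟩
    refine ⟨l.get, List.nodup_iff_injective_get.1 h1, fun i => h3 _ (List.get_mem _ _),
      fun i j hij => ?_⟩
    have := List.isChain_iff_getElem.1 h2 i.val (by have := j.isLt; omega)
    simpa [← hij] using this

/-- the vertices: block, path, block -/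
abbrev V (m : ℕ) : Type := Fin 15 ⊕ (Fin m ⊕ Fin 15)

/-- first block -/
def i1 {m : ℕ} (a : Fin 15) : V m := Sum.inl a
/-- connecting path -/
def i2 {m : ℕ} (a : Fin m) : V m := Sum.inr (Sum.inl a)
/-- second block -/
def i3 {m : ℕ} (a : Fin 15) : V m := Sum.inr (Sum.inr a)

/-- the arcs -/
def adj (m : ℕ) : V m → V m → Prop
  | .inl a, .inl b => B b a
  | .inl a, .inr (.inl i) => T a ∧ i.val = 0
  | .inl a, .inr (.inr b) => m = 0 ∧ T a ∧ T b
  | .inr (.inl i), .inr (.inl j) => j.val = i.val + 1
  | .inr (.inl i), .inr (.inr b) => i.val + 1 = m ∧ T b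
  | .inr (.inr a), .inr (.inr b) => B a b
  | _, _ => False

/-- the digraph -/
def G (m : ℕ) : Digraph (V m) := ⟨adj m⟩

theorem dec {m : ℕ} : ∀ l : List (V m), l.IsChain (adj m) → ∃ (a : List (Fin 15)) (x : List (Fin m))
    (b : List (Fin 15)), l = a.map i1 ++ (x.map i2 ++ b.map i3) := by
  intro l
  induction l with
  | nil => intro _; exact ⟨[], [], [], rfl⟩
  | cons v l ih =>
    intro h
    rw [List.isChain_cons] at h
    obtain ⟨a, x, b, rfl⟩ := ih h.2
    rcases v with v | v | v
    · exact ⟨v :: a, x, b, rfl⟩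
    · cases a with
      | cons c a => exact (h.1 (i1 c) (by simp)).elim
      | nil => exact ⟨[], v :: x, b, rfl⟩
    · cases a with
      | cons c a => exact (h.1 (i1 c) (by simp)).elim
      | nil =>
        cases x with
        | cons c x => exact (h.1 (i2 c) (by simp)).elim
        | nil => exact ⟨[], [], v :: b, rfl⟩

theorem run {m : ℕ} : ∀ (x : List (Fin m)) (h : x ≠ []),
    x.IsChain (fun i j => j.val = i.val + 1) →
    (x.getLast h).val + 1 = (x.head h).val + x.length := by
  intro x
  induction x with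
  | nil => intro h; exact absurd rfl h
  | cons a x ih =>
    intro _ hc
    cases x with
    | nil => simp
    | cons b x =>
      rw [List.isChain_cons_cons] at hc
      have := ih (by simp) hc.2
      rw [List.getLast_cons (by simp), this]
      simp [hc.1]
      omega

theorem T_B : ∀ a : Fin 15, ¬ B a a := by decide +kernel

/-- a path which meets both blocks -/
theorem cross {m : ℕ} {a : List (Fin 15)} {x : List (Fin m)} {b : List (Fin 15)} (ha : a ≠ [])
    (hb : b ≠ []) (hn : (a.map i1 ++ (x.map i2 ++ b.map i3) : List (V m)).Nodup)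
    (hc : (a.map i1 ++ (x.map i2 ++ b.map i3) : List (V m)).IsChain (adj m)) :
    Tp a.reverse ∧ Tp b ∧ x.length = m := by
  rw [List.isChain_append, List.isChain_append, List.isChain_map, List.isChain_map,
    List.isChain_map] at hc
  obtain ⟨c1, ⟨c2, c3, c4⟩, c5⟩ := hc
  rw [List.nodup_append, List.nodup_append] at hn
  obtain ⟨n1, ⟨n2, n3, -⟩, -⟩ := hn
  have n1 := List.Nodup.of_map _ n1
  have n3 := List.Nodup.of_map _ n3
  have la : i1 (a.getLast ha) ∈ (a.map (i1 (m := m))).getLast? := by
    rw [List.getLast?_map, List.getLast?_eq_some_getLast ha]; rfl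
  have hb' : i3 (b.head hb) ∈ (b.map (i3 (m := m))).head? := by
    rw [List.head?_map, List.head?_eq_some_head hb]; rfl
  have ra : a.reverse.head? = some (a.getLast ha) := by
    rw [List.head?_reverse, List.getLast?_eq_some_getLast ha]
  have cr : a.reverse.IsChain B := List.isChain_reverse.2 c1
  have rb : b.head? = some (b.head hb) := List.head?_eq_some_head hb
  cases x with
  | nil =>
    obtain ⟨h0, h1, h2⟩ := c5 _ la _ (by simpa using hb')
    refine ⟨⟨List.nodup_reverse.2 n1, cr, _, ra, h1⟩, ⟨n3, c3, _, rb, h2⟩, h0.symm⟩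
  | cons y x =>
    obtain ⟨h1, h2⟩ := c5 _ la (i2 y) (by simp)
    have lx : i2 ((y :: x).getLast (by simp)) ∈ ((y :: x).map (i2 (m := m))).getLast? := by
      rw [List.getLast?_map, List.getLast?_eq_some_getLast (by simp)]; rfl
    obtain ⟨h3, h4⟩ := c4 _ lx _ hb'
    refine ⟨⟨List.nodup_reverse.2 n1, cr, _, ra, h1⟩, ⟨n3, c3, _, rb, h4⟩, ?_⟩
    have := run (y :: x) (by simp) c2
    rw [List.head_cons, h2] at this
    omega

/-- gluing a path -/
theorem mkpath {m : ℕ} {a b : List (Fin 15)} (ha : Tp a.reverse) (hb : Tp b) :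
    (a.map i1 ++ ((List.finRange m).map i2 ++ b.map i3) : List (V m)).Nodup ∧
    (a.map i1 ++ ((List.finRange m).map i2 ++ b.map i3) : List (V m)).IsChain (adj m) := by
  have hda : ∀ v ∈ a.getLast?, T v := by
    obtain ⟨v, h1, h2⟩ := ha.hd
    rw [List.head?_reverse] at h1
    intro w hw
    rw [Option.mem_def] at h1 hw
    rw [h1] at hw
    exact (Option.some.inj hw) ▸ h2
  have hdb : ∀ v ∈ b.head?, T v := by
    obtain ⟨v, h1, h2⟩ := hb.hd
    intro w hw
    rw [Option.mem_def] at h1 hw
    rw [h1] at hw
    exact (Option.some.inj hw) ▸ h2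
  have i1i : Function.Injective (i1 (m := m)) := fun a b h => Sum.inl.inj h
  have i2i : Function.Injective (i2 (m := m)) := fun a b h => Sum.inl.inj (Sum.inr.inj h)
  have i3i : Function.Injective (i3 (m := m)) := fun a b h => Sum.inr.inj (Sum.inr.inj h)
  have hfh : ∀ y ∈ (List.finRange m).head?, y.val = 0 := by
    intro y hy
    rw [List.head?_eq_getElem?, Option.mem_def, List.getElem?_eq_some_iff] at hy
    obtain ⟨h, rfl⟩ := hy
    simp
  have hfl : ∀ y ∈ (List.finRange m).getLast?, y.val + 1 = m := by
    intro y hy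
    rw [List.getLast?_eq_getElem?, Option.mem_def, List.getElem?_eq_some_iff] at hy
    obtain ⟨h, rfl⟩ := hy
    simp at h ⊢
    omega
  constructor
  · rw [List.nodup_append, List.nodup_append]
    refine ⟨(List.nodup_reverse.1 ha.nd).map i1i, ⟨(List.nodup_finRange m).map i2i,
      hb.nd.map i3i, ?_⟩, ?_⟩
    · intro u hu w hw
      obtain ⟨u, -, rfl⟩ := List.mem_map.1 hu
      obtain ⟨w, -, rfl⟩ := List.mem_map.1 hw
      simp [i2, i3]
    · intro u hu w hw
      obtain ⟨u, -, rfl⟩ := List.mem_map.1 hu
      rcases List.mem_append.1 hw with hw | hw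
      · obtain ⟨w, -, rfl⟩ := List.mem_map.1 hw
        simp [i1, i2]
      · obtain ⟨w, -, rfl⟩ := List.mem_map.1 hw
        simp [i1, i3]
  · rw [List.isChain_append, List.isChain_append, List.isChain_map, List.isChain_map,
      List.isChain_map]
    refine ⟨List.isChain_reverse.1 ha.ch, ⟨?_, hb.ch, ?_⟩, ?_⟩
    · rw [List.isChain_iff_getElem]
      intro i hi
      simp [adj, i2]
    · intro u hu w hw
      rw [List.getLast?_map] at hu
      rw [List.head?_map] at hw
      obtain ⟨u, hu', rfl⟩ := Option.map_eq_some_iff.1 hu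
      obtain ⟨w, hw', rfl⟩ := Option.map_eq_some_iff.1 hw
      exact ⟨hfl u hu', hdb w hw'⟩
    · intro u hu w hw
      rw [List.getLast?_map] at hu
      obtain ⟨u, hu', rfl⟩ := Option.map_eq_some_iff.1 hu
      rcases Nat.eq_zero_or_pos m with rfl | hm
      · have : (List.finRange 0) = [] := rfl
        rw [this, List.map_nil, List.nil_append, List.head?_map] at hw
        obtain ⟨w, hw', rfl⟩ := Option.map_eq_some_iff.1 hw
        exact ⟨rfl, hda u hu', hdb w hw'⟩
      · have hne : (List.finRange m).map (i2 (m := m)) ≠ [] := by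
          intro h
          have := congrArg List.length h
          simp at this
          omega
        rw [List.head?_append_of_ne_nil _ hne, List.head?_map] at hw
        obtain ⟨w, hw', rfl⟩ := Option.map_eq_some_iff.1 hw
        exact ⟨hda u hu', hfh w hw'⟩

theorem bound {m : ℕ} (l : List (V m)) (hn : l.Nodup) (hc : l.IsChain (adj m))
    (h : 16 + m ≤ l.length) : ∃ (a : List (Fin 15)) (x : List (Fin m)) (b : List (Fin 15)),
    l = a.map i1 ++ (x.map i2 ++ b.map i3) ∧ Tp a.reverse ∧ Tp b ∧ x.length = m ∧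
    a.length ≤ 14 ∧ b.length ≤ 14 ∧ l.length = a.length + m + b.length := by
  obtain ⟨a, x, b, rfl⟩ := dec l hc
  have hn' := hn
  rw [List.nodup_append, List.nodup_append] at hn'
  obtain ⟨n1, ⟨n2, n3, -⟩, -⟩ := hn'
  have n1 := (List.Nodup.of_map _ n1).length_le_card
  have n2 := (List.Nodup.of_map _ n2).length_le_card
  have n3 := (List.Nodup.of_map _ n3).length_le_card
  rw [Fintype.card_fin] at n1 n2 n3
  simp only [List.length_append, List.length_map] at h ⊢
  have ha : a ≠ [] := by rintro rfl; simp at h; omega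
  have hb : b ≠ [] := by rintro rfl; simp at h; omega
  obtain ⟨h1, h2, h3⟩ := cross ha hb hn hc
  have h4 := h1.le
  rw [List.length_reverse] at h4
  exact ⟨a, x, b, rfl, h1, h2, h3, h4, h2.le, by omega⟩

theorem main (m : ℕ) : Lam (G m) Set.univ (28 + m) ∧
    ¬ ∃ S : Set (V m), Lam (G m) S 1 ∧ Lam (G m) Sᶜ (27 + m) := by
  refine ⟨⟨?_, fun k hk => ?_⟩, ?_⟩
  · have h := mkpath (m := m) (a := (lg 0).reverse) (b := lg 0)
      (by rw [List.reverse_reverse]; exact lg_tp 0) (lg_tp 0)
    exact (hasPath_iff _ _ _).2 ⟨_, by simp [lg_len]; omega, h.1, h.2, fun _ _ => trivial⟩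
  · obtain ⟨l, rfl, hn, hc, -⟩ := (hasPath_iff _ _ _).1 hk
    by_contra hl
    obtain ⟨a, x, b, -, -, -, -, h1, h2, h3⟩ := bound l hn hc (by omega)
    omega
  · rintro ⟨S, ⟨-, hS⟩, hp, hmax⟩
    obtain ⟨l, hl, hn, hc, hlS⟩ := (hasPath_iff _ _ _).1 hp
    obtain ⟨a, x, b, rfl, h1, h2, h3, h4, h5, h6⟩ := bound l hn hc (by omega)
    have st : ∀ u ∈ S, ∀ w ∈ S, u ≠ w → ¬ adj m u w := by
      intro u hu w hw huw h
      have := hS 2 ((hasPath_iff _ _ _).2 ⟨[u, w], rfl, by simpa using huw,
        List.isChain_cons_cons.2 ⟨h, by simp⟩, by simp [hu, hw]⟩)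
      omega
    have fin : ∀ a' b' : List (Fin 15), Tp a'.reverse → Tp b' → a'.length = 14 →
        b'.length = 14 → (∀ z ∈ a', i1 z ∉ S) → (∀ z ∈ b', i3 z ∉ S) → False := by
      intro a' b' t1 t2 e1 e2 s1 s2
      have hp := mkpath (m := m) t1 t2
      have := hmax (28 + m) ((hasPath_iff _ _ _).2 ⟨_, by simp [e1, e2]; omega, hp.1, hp.2, ?_⟩)
      · omega
      · intro z hz
        simp only [List.mem_append, List.mem_map] at hz
        rcases hz with ⟨z, hz, rfl⟩ | ⟨z, -, rfl⟩ | ⟨z, hz, rfl⟩
        · exact s1 z hz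
        · have : z ∈ x := by
            by_contra hzx
            have hxn : x.Nodup := by
              rw [List.nodup_append, List.nodup_append] at hn
              exact List.Nodup.of_map _ hn.2.1.1
            have := (List.nodup_cons.2 ⟨hzx, hxn⟩).length_le_card
            rw [Fintype.card_fin, List.length_cons] at this
            omega
          exact hlS (i2 z) (List.mem_append_right _ (List.mem_append_left _
            (List.mem_map_of_mem this)))
        · exact s2 z hz
    have sa : ∀ z ∈ a, i1 z ∉ S := fun z hz =>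
      hlS (i1 z) (List.mem_append_left _ (List.mem_map_of_mem hz))
    have sb : ∀ z ∈ b, i3 z ∉ S := fun z hz =>
      hlS (i3 z) (List.mem_append_right _ (List.mem_append_right _ (List.mem_map_of_mem hz)))
    rcases Nat.lt_or_ge a.length 14 with q | q
    · obtain ⟨a', t1, t2, t3⟩ := h1.ext (by rw [List.length_reverse]; omega) {z | i1 z ∈ S}
        (fun u hu w hw h => st (i1 w) hw (i1 u) hu (fun e => T_B u (by
          have : w = u := Sum.inl.inj e
          rw [this] at h; exact h)) h)
        (fun z hz => sa z (List.mem_reverse.1 hz))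
      exact fin a'.reverse b (by rwa [List.reverse_reverse]) h2 (by rw [List.length_reverse, t2])
        (by omega) (fun z hz => t3 z (List.mem_reverse.1 hz)) sb
    · obtain ⟨b', t1, t2, t3⟩ := h2.ext (by omega) {z | i3 z ∈ S}
        (fun u hu w hw h => st (i3 u) hu (i3 w) hw (fun e => T_B u (by
          have : u = w := Sum.inr.inj (Sum.inr.inj e)
          rw [← this] at h; exact h)) h) sb
      exact fin a b' h1 t1 (by omega) t2 sa t3

theorem ori : ∀ a b : Fin 15, B a b → ¬ B b a := by decide +kernel

theorem oriented (m : ℕ) (u w : V m) (h : (G m).Adj u w) : ¬ (G m).Adj w u := by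
  rcases u with u | u | u <;> rcases w with w | w | w <;> simp only [G, adj] at h ⊢ <;>
    first
      | exact fun k => ori _ _ h k
      | exact not_false
      | (intro k; omega)


/-- The path partition conjecture for digraphs fails for all pairs `(1, n)` and `(n, 1)` with
`n ≥ 27`, for digraphs without loops and without pairs of opposite arcs. -/
theorem result (n : ℕ) (hn : 27 ≤ n) : ∃ (V : Type) (_ : Fintype V) (D : Digraph V),
    Fintype.card V = n + 3 ∧ (∀ u v, D.Adj u v → ¬ D.Adj v u) ∧ Lam D Set.univ (n + 1) ∧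
    ∀ S : Set V, ¬ (Lam D S 1 ∧ Lam D Sᶜ n) ∧ ¬ (Lam D S n ∧ Lam D Sᶜ 1) := by
  obtain ⟨m, rfl⟩ := Nat.exists_eq_add_of_le hn
  refine ⟨V m, inferInstance, G m, ?_, oriented m, ?_, fun S => ⟨?_, ?_⟩⟩
  · simp [V]; omega
  · have := (main m).1
    rwa [show 27 + m + 1 = 28 + m by omega]
  · exact fun h => (main m).2 ⟨S, h⟩
  · exact fun h => (main m).2 ⟨Sᶜ, h.2, by rw [compl_compl]; exact h.1⟩

end Pool.Agent.Results.MP_398cfe_co.AllLengths
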